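import Mathlib.Data.Set.Finite.Lattice
import Mathlib.Order.Interval.Finset.Nat
import Mathlib.Data.Set.Countable
import Mathlib.Algebra.Notation.Lemmas
import Mathlib.Tactic.Monotonicity.Lemmas
import Mathlib.Algebra.Order.Archimedean.Real.Basic
import Mathlib.Tactic.Algebra.Basic

-- ======== part 0: formerly Pool.Agent.MP_da2089_gt.Ideals
section MrgPart0

set_option autoImplicit false

namespace Pool.Agent.MP_da2089_gt

open Set

/-- A family of small sets closed under subsets and unions such that every map to the naturals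
is bounded off a small set. -/
structure Small {P : Type*} (I : Set P → Prop) : Prop where
  mono : ∀ {s t : Set P}, I t → s ⊆ t → I s
  union : ∀ {s t : Set P}, I s → I t → I (s ∪ t)
  star : ∀ g : P → ℕ, ∃ n, I {p | n < g p}

theorem Small.iUnion {P : Type*} {I : Set P → Prop} (h : Small I) (S : ℕ → Set P)
    (hS : ∀ n, I (S n)) : I (⋃ n, S n) := by
  classical
  obtain ⟨n, hn⟩ := h.star (fun p => if hp : ∃ k, p ∈ S k then Nat.find hp else 0)
  have hfin : ∀ m, I {p | ∃ k ≤ m, p ∈ S k} := by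
    intro m
    induction m with
    | zero =>
      refine h.mono (hS 0) ?_
      rintro p ⟨k, hk, hp⟩
      obtain rfl : k = 0 := by omega
      exact hp
    | succ m ih =>
      refine h.mono (h.union ih (hS (m + 1))) ?_
      rintro p ⟨k, hk, hp⟩
      rcases Nat.lt_or_ge k (m + 1) with h1 | h1
      · exact Or.inl ⟨k, by omega, hp⟩
      · obtain rfl : k = m + 1 := by omega
        exact Or.inr hp
  refine h.mono (h.union hn (hfin n)) ?_
  intro p hp
  have hp' : ∃ k, p ∈ S k := by simpa using hp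
  by_cases hlt : n < Nat.find hp'
  · left
    simp only [mem_ofPred_eq, dif_pos hp']
    exact hlt
  · right
    exact ⟨Nat.find hp', by omega, Nat.find_spec hp'⟩

theorem exists_unbounded_on_fibres {α β : Type*} (s : Set α) (φ : α → β) :
    ∃ g : α → ℕ, ∀ b, (s ∩ {a | φ a = b}).Infinite → ∀ m, ∃ a ∈ s, φ a = b ∧ m < g a := by
  have key : ∀ b, ∃ g : α → ℕ, (s ∩ {a | φ a = b}).Infinite →
      ∀ m, ∃ a ∈ s, φ a = b ∧ m < g a := by
    intro b
    by_cases hb : (s ∩ {a | φ a = b}).Infinite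
    · let e : ℕ → α := fun n => (hb.natEmbedding _ n : α)
      have he : Function.Injective e :=
        Subtype.val_injective.comp (hb.natEmbedding _).injective
      refine ⟨Function.invFun e, fun _ m => ⟨e (m + 1), (hb.natEmbedding _ (m + 1)).2.1,
        (hb.natEmbedding _ (m + 1)).2.2, ?_⟩⟩
      rw [Function.leftInverse_invFun he]
      omega
    · exact ⟨fun _ => 0, fun h => absurd h hb⟩
  choose G hG using key
  refine ⟨fun a => G (φ a) a, fun b hb m => ?_⟩
  obtain ⟨a, ha, hab, hm⟩ := hG b hb m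
  exact ⟨a, ha, hab, by simpa [hab] using hm⟩

theorem exists_colouring {Q : Type*} (R : Q → Q → Prop) (hsymm : ∀ a b, R a b → R b a)
    (hc : ∀ a, {b | R a b}.Countable) :
    ∃ h : Q → ℕ, ∀ a b, R a b → h a = h b → a = b := by
  have hcount : ∀ a, {b | Relation.ReflTransGen R a b}.Countable := by
    intro a
    let N : ℕ → Set Q := fun k => Nat.rec {a} (fun _ T => ⋃ x ∈ T, {b | R x b}) k
    have hN : ∀ k, (N k).Countable := by
      intro k
      induction k with
      | zero => exact countable_singleton a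
      | succ k ih => exact ih.biUnion (fun x _ => hc x)
    refine (countable_iUnion hN).mono ?_
    intro b hb
    induction hb with
    | refl => exact mem_iUnion.2 ⟨0, rfl⟩
    | tail _ hbc ih =>
      obtain ⟨k, hk⟩ := mem_iUnion.1 ih
      exact mem_iUnion.2 ⟨k + 1, mem_biUnion hk hbc⟩
  have hsymm' : ∀ a b, Relation.ReflTransGen R a b → Relation.ReflTransGen R b a := by
    intro a b hab
    induction hab with
    | refl => exact Relation.ReflTransGen.refl
    | tail _ hbc ih => exact Relation.ReflTransGen.head (hsymm _ _ hbc) ih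
  let s : Setoid Q := ⟨Relation.ReflTransGen R,
    ⟨fun _ => Relation.ReflTransGen.refl, fun {a b} => hsymm' a b, fun h1 h2 => h1.trans h2⟩⟩
  have key : ∀ c : Quotient s, ∃ h : Q → ℕ, InjOn h {q | Quotient.mk s q = c} := by
    intro c
    obtain ⟨a, rfl⟩ := Quotient.exists_rep c
    have : {q | Quotient.mk s q = Quotient.mk s a}.Countable := by
      refine (hcount a).mono ?_
      intro q hq
      exact hsymm' _ _ (Quotient.exact hq)
    exact Set.countable_iff_exists_injOn.1 this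
  choose H hH using key
  refine ⟨fun q => H (Quotient.mk s q) q, fun a b hab heq => ?_⟩
  have hq : Quotient.mk s b = Quotient.mk s a :=
    Quotient.sound (hsymm' _ _ (Relation.ReflTransGen.single hab))
  refine hH (Quotient.mk s a) rfl hq ?_
  simpa [hq] using heq

theorem small_infinite_degree {P Q : Type*} {I : Set P → Prop} {J : Set Q → Prop}
    (hI : Small I) (hJ : Small J) (A : P → Q → Prop)
    (hA : ∀ S, I S → J {q | ∃ p ∈ S, A p q}) (hA' : ∀ T, J T → I {p | ∃ q ∈ T, A p q}) :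
    I {p | {q | A p q}.Infinite} := by
  classical
  rcases isEmpty_or_nonempty Q with hQ | hQ
  · obtain ⟨n, hn⟩ := hI.star (fun _ => 0)
    refine hI.mono hn ?_
    intro p hp
    exact absurd (Set.toFinite _) hp
  set P' : Set P := {p | {q | A p q}.Infinite} with hP'
  have hy : ∀ p, ∃ y : ℕ → Q, p ∈ P' → Function.Injective y ∧ ∀ n, A p (y n) := by
    intro p
    by_cases hp : p ∈ P'
    · exact ⟨fun n => (Set.Infinite.natEmbedding _ hp n : Q), fun _ =>
        ⟨Subtype.val_injective.comp (Set.Infinite.natEmbedding _ hp).injective,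
          fun n => (Set.Infinite.natEmbedding _ hp n).2⟩⟩
    · exact ⟨fun _ => Classical.arbitrary Q, fun h => absurd h hp⟩
  choose y hy using hy
  let U : ℕ → Set P := fun n => {p | p ∈ P' ∧ (P' ∩ {a | y a n = y p n}).Infinite}
  have hU : ∀ n, I (U n) := by
    intro n
    obtain ⟨g, hg⟩ := exists_unbounded_on_fibres P' (fun a => y a n)
    obtain ⟨m, hm⟩ := hI.star g
    refine hI.mono (hA' _ (hA _ hm)) ?_
    rintro p ⟨hp, hinf⟩
    obtain ⟨a, ha, hab, hma⟩ := hg (y p n) hinf m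
    refine ⟨y p n, ⟨a, hma, ?_⟩, (hy p hp).2 n⟩
    rw [← hab]
    exact (hy a ha).2 n
  have hUU := hI.iUnion U hU
  let P'' : Set P := P' \ ⋃ n, U n
  let R : Q → Q → Prop := fun q q' => ∃ p ∈ P'', ∃ n m, q = y p n ∧ q' = y p m
  have hRc : ∀ q, {q' | R q q'}.Countable := by
    intro q
    have hfin : ∀ n, (P'' ∩ {a | y a n = q}).Finite := by
      intro n
      rcases (P'' ∩ {a | y a n = q}).eq_empty_or_nonempty with h0 | ⟨p, hp, hpq⟩
      · rw [h0]; exact finite_empty
      · have hp' : p ∉ U n := fun h => hp.2 (mem_iUnion.2 ⟨n, h⟩)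
        have hf : (P' ∩ {a | y a n = y p n}).Finite := by
          by_contra hcon
          exact hp' ⟨hp.1, hcon⟩
        refine hf.subset ?_
        rintro a ⟨ha, haq⟩
        exact ⟨ha.1, haq.trans hpq.symm⟩
    refine (countable_iUnion (fun n => (hfin n).countable.biUnion
      (fun p _ => countable_range (y p)))).mono ?_
    rintro q' ⟨p, hp, n, m, hq, hq'⟩
    exact mem_iUnion.2 ⟨n, mem_biUnion (show p ∈ P'' ∩ {a | y a n = q} from ⟨hp, hq.symm⟩)
      ⟨m, hq'.symm⟩⟩
  obtain ⟨h, hh⟩ := exists_colouring R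
    (by rintro a b ⟨p, hp, n, m, h1, h2⟩; exact ⟨p, hp, m, n, h2, h1⟩) hRc
  obtain ⟨m, hm⟩ := hJ.star h
  refine hI.mono (hI.union hUU (hA' _ hm)) ?_
  intro p hp
  by_cases hpU : p ∈ ⋃ n, U n
  · exact Or.inl hpU
  right
  have hinj : Function.Injective (fun n => h (y p n)) := by
    intro n n' hnn
    exact (hy p hp).1 (hh _ _ ⟨p, ⟨hp, hpU⟩, n, n', rfl, rfl⟩ hnn)
  have hinf : (range (fun n => h (y p n))).Infinite := infinite_range_of_injective hinj
  obtain ⟨k, ⟨n, rfl⟩, hk⟩ := hinf.exists_gt m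
  exact ⟨y p n, hk, (hy p hp).2 n⟩

end Pool.Agent.MP_da2089_gt

end MrgPart0

-- ======== part 1: formerly Pool.Agent.MP_da2089_gt.Core
section MrgPart1

set_option autoImplicit false

namespace Pool.Agent.MP_da2089_gt

open Set

/-- The rows of `f` at `x` and `x'` are uniformly `K`-close. -/
def Close {X Y : Type*} (f : X → Y → ℝ) (K : ℝ) (x x' : X) : Prop :=
  ∀ y, |f x y - f x' y| ≤ K

/-- Rows at finite uniform distance. -/
def rowSetoid {X Y : Type*} (f : X → Y → ℝ) : Setoid X where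
  r x x' := ∃ K, 0 ≤ K ∧ Close f K x x'
  iseqv := by
    refine ⟨fun x => ⟨0, le_rfl, fun y => by simp⟩, ?_, ?_⟩
    · rintro x x' ⟨K, hK, h⟩
      exact ⟨K, hK, fun y => by rw [abs_sub_comm]; exact h y⟩
    · rintro x x' x'' ⟨K, hK, h⟩ ⟨K', hK', h'⟩
      exact ⟨K + K', by positivity, fun y =>
        (abs_sub_le _ (f x' y) _).trans (add_le_add (h y) (h' y))⟩

/-- The properties of one side of the product that the proof uses. -/
structure Side {X Y : Type*} (f : X → Y → ℝ) (I : Set X → Prop) (J : Set Y → Prop) : Prop where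
  mono : ∀ {s t : Set X}, I t → s ⊆ t → I s
  union : ∀ {s t : Set X}, I s → I t → I (s ∪ t)
  lip : ∀ g : X → ℝ, (∀ K x x', 0 ≤ K → Close f K x x' → |g x - g x'| ≤ K) →
    ∃ B, I B ∧ ∃ M, ∀ x ∉ B, |g x| ≤ M
  osc : ∀ B, I B → ∃ C, J C ∧ ∃ K, ∀ y ∉ C, ∀ x ∈ B, ∀ x' ∈ B, |f x y - f x' y| ≤ K

variable {X Y : Type*} {f : X → Y → ℝ} {I : Set X → Prop} {J : Set Y → Prop}

theorem Side.bdd (hX : Side f I J) (hY : Side (fun y x => f x y) J I) (B : Set X) (hB : I B) :
    ∃ C, J C ∧ ∃ M, ∀ x ∈ B, ∀ y ∉ C, |f x y| ≤ M := by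
  obtain ⟨C, hC, K, hK⟩ := hX.osc B hB
  rcases B.eq_empty_or_nonempty with rfl | ⟨x₀, hx₀⟩
  · exact ⟨C, hC, 0, fun x hx => absurd hx (notMem_empty x)⟩
  obtain ⟨C', hC', M, hM⟩ := hY.lip (f x₀) (fun K y y' _ h => h x₀)
  refine ⟨C ∪ C', hY.union hC hC', K + M, fun x hx y hy => ?_⟩
  have h1 := hK y (fun h => hy (Or.inl h)) x hx x₀ hx₀
  have h2 := hM y (fun h => hy (Or.inr h))
  calc |f x y| = |(f x y - f x₀ y) + f x₀ y| := by ring_nf
    _ ≤ |f x y - f x₀ y| + |f x₀ y| := abs_add_le _ _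
    _ ≤ K + M := add_le_add h1 h2

theorem Side.rep [Nonempty Y] (hX : Side f I J) :
    ∃ B, I B ∧ ∃ K, ∀ x ∉ B, Close f K x (Quotient.mk (rowSetoid f) x).out := by
  have hb : ∀ x, BddAbove (range fun y => |f x y - f (Quotient.mk (rowSetoid f) x).out y|) := by
    intro x
    obtain ⟨K, _, h⟩ : (rowSetoid f).r (Quotient.mk (rowSetoid f) x).out x := Quotient.mk_out x
    refine ⟨K, ?_⟩
    rintro _ ⟨y, rfl⟩
    simpa [abs_sub_comm] using h y
  have hle : ∀ K x x', 0 ≤ K → Close f K x x' →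
      (⨆ y, |f x y - f (Quotient.mk (rowSetoid f) x).out y|) ≤
        K + ⨆ y, |f x' y - f (Quotient.mk (rowSetoid f) x').out y| := by
    intro K x x' hK h
    have hq : Quotient.mk (rowSetoid f) x = Quotient.mk (rowSetoid f) x' :=
      Quotient.sound ⟨K, hK, h⟩
    refine ciSup_le fun y => ?_
    rw [hq]
    exact (abs_sub_le _ (f x' y) _).trans (add_le_add (h y) (le_ciSup (hb x') y))
  obtain ⟨B, hB, M, hM⟩ := hX.lip
    (fun x => ⨆ y, |f x y - f (Quotient.mk (rowSetoid f) x).out y|) (by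
      intro K x x' hK h
      have h1 := hle K x x' hK h
      have h2 := hle K x' x hK (fun y => by rw [abs_sub_comm]; exact h y)
      rw [abs_le]
      constructor <;> linarith)
  exact ⟨B, hB, M, fun x hx y => ((le_ciSup (hb x) y).trans (le_abs_self _)).trans (hM x hx)⟩

theorem Side.small (hX : Side f I J) :
    Small (fun S : Set (Quotient (rowSetoid f)) => I (Quotient.mk (rowSetoid f) ⁻¹' S)) := by
  refine ⟨fun ht hst => hX.mono ht (preimage_mono hst), fun hs ht => hX.union hs ht, ?_⟩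
  intro g
  obtain ⟨B, hB, M, hM⟩ := hX.lip (fun x => (g (Quotient.mk (rowSetoid f) x) : ℝ)) (by
    intro K x x' hK h
    have hq : Quotient.mk (rowSetoid f) x = Quotient.mk (rowSetoid f) x' :=
      Quotient.sound ⟨K, hK, h⟩
    simpa [hq] using hK)
  refine ⟨⌈M⌉₊, hX.mono hB ?_⟩
  intro x hx
  by_contra hxB
  have h1 := hM x hxB
  have h2 : ⌈M⌉₊ < g (Quotient.mk (rowSetoid f) x) := hx
  have h3 : (⌈M⌉₊ : ℝ) < g (Quotient.mk (rowSetoid f) x) := by exact_mod_cast h2
  have h4 := Nat.le_ceil M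
  have h5 := le_abs_self (g (Quotient.mk (rowSetoid f) x) : ℝ)
  linarith

theorem Side.uniform [Nonempty X] (hX : Side f I J) (hY : Side (fun y x => f x y) J I) :
    ∃ K : ℕ, ∀ S : Set (Quotient (rowSetoid f)), I (Quotient.mk (rowSetoid f) ⁻¹' S) →
      J (Quotient.mk (rowSetoid fun y x => f x y) ⁻¹' {q | ∃ p ∈ S, (K : ℝ) < |f p.out q.out|}) := by
  obtain ⟨C₀, hC₀, K₀, hK₀⟩ := hY.rep
  have key : ∀ S : Set (Quotient (rowSetoid f)), I (Quotient.mk (rowSetoid f) ⁻¹' S) →
      ∃ K : ℕ, J (Quotient.mk (rowSetoid fun y x => f x y) ⁻¹'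
        {q | ∃ p ∈ S, (K : ℝ) < |f p.out q.out|}) := by
    intro S hS
    obtain ⟨C, hC, M, hM⟩ := hX.bdd hY _ hS
    refine ⟨⌈M + K₀⌉₊, hY.mono (hY.union hC₀ hC) ?_⟩
    rintro y ⟨p, hp, hlt⟩
    by_contra hy
    have h1 := hM p.out (by simpa using hp) y (fun h => hy (Or.inr h))
    have h2 := hK₀ y (fun h => hy (Or.inl h)) p.out
    have h3 := Nat.le_ceil (M + K₀)
    have h4 := abs_sub_abs_le_abs_sub
      (f p.out (Quotient.mk (rowSetoid fun y x => f x y) y).out) (f p.out y)
    rw [abs_sub_comm] at h4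
    linarith
  by_contra hcon
  push Not at hcon
  choose S hS hS' using hcon
  obtain ⟨K, hK⟩ := key _ (hX.small.iUnion S hS)
  refine hS' K (hY.mono hK ?_)
  rintro y ⟨p, hp, hlt⟩
  exact ⟨p, mem_iUnion.2 ⟨K, hp⟩, hlt⟩

theorem Side.main [Nonempty X] [Nonempty Y] (hX : Side f I J)
    (hY : Side (fun y x => f x y) J I) :
    ∃ B, I B ∧ ∃ M, ∀ x ∉ B, ∀ y, |f x y| ≤ M := by
  obtain ⟨K₁, hK₁⟩ := hX.uniform hY
  obtain ⟨K₂, hK₂⟩ := hY.uniform (f := fun y x => f x y) hX
  have hB₁ := small_infinite_degree hX.small hY.small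
    (fun p q => ((max K₁ K₂ : ℕ) : ℝ) < |f p.out q.out|)
    (by
      intro S hS
      refine hY.mono (hK₁ S hS) ?_
      rintro y ⟨p, hp, hlt⟩
      refine ⟨p, hp, lt_of_le_of_lt ?_ hlt⟩
      exact_mod_cast le_max_left _ _)
    (by
      intro T hT
      refine hX.mono (hK₂ T hT) ?_
      rintro x ⟨q, hq, hlt⟩
      refine ⟨q, hq, lt_of_le_of_lt ?_ hlt⟩
      exact_mod_cast le_max_right _ _)
  obtain ⟨B₀, hB₀, K₀, hK₀⟩ := hX.rep
  obtain ⟨C₀, hC₀, L₀, hL₀⟩ := hY.rep
  obtain ⟨B₂, hB₂, M₂, hM₂⟩ := hY.bdd (f := fun y x => f x y) hX C₀ hC₀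
  obtain ⟨B₃, hB₃, M₃, hM₃⟩ := hX.lip (fun x => ⨆ y, |f x y|) (by
    have hle : ∀ K x x', Close f K x x' → BddAbove (range fun y => |f x' y|) →
        ∀ y, |f x y| ≤ K + ⨆ y, |f x' y| := by
      intro K x x' h hb y
      have h1 := abs_sub_abs_le_abs_sub (f x y) (f x' y)
      have h2 := h y
      have h3 : |f x' y| ≤ ⨆ y, |f x' y| := le_ciSup hb y
      linarith
    intro K x x' hK h
    have h' : Close f K x' x := fun y => by rw [abs_sub_comm]; exact h y
    by_cases hb : BddAbove (range fun y => |f x' y|)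
    · have hb' : BddAbove (range fun y => |f x y|) :=
        ⟨_, by rintro _ ⟨y, rfl⟩; exact hle K x x' h hb y⟩
      have h1 := ciSup_le (hle K x x' h hb)
      have h2 := ciSup_le (hle K x' x h' hb')
      rw [abs_le]
      constructor <;> linarith
    · have hb' : ¬ BddAbove (range fun y => |f x y|) := fun hb' =>
        hb ⟨_, by rintro _ ⟨y, rfl⟩; exact hle K x' x h' hb' y⟩
      simp only [Real.iSup_of_not_bddAbove hb, Real.iSup_of_not_bddAbove hb']
      simpa using hK)
  refine ⟨_, hX.union (hX.union (hX.union hB₀ hB₁) hB₂) hB₃, M₃, fun x hx y => ?_⟩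
  simp only [mem_union, not_or] at hx
  obtain ⟨⟨⟨hx₀, hx₁⟩, hx₂⟩, hx₃⟩ := hx
  have hfin : {q : Quotient (rowSetoid fun y x => f x y) | ((max K₁ K₂ : ℕ) : ℝ) <
      |f (Quotient.mk (rowSetoid f) x).out q.out|}.Finite := by
    by_contra hcon
    exact hx₁ hcon
  obtain ⟨M, hM⟩ := (hfin.image
    (fun q => |f (Quotient.mk (rowSetoid f) x).out q.out|)).bddAbove
  have hbar : ∀ q : Quotient (rowSetoid fun y x => f x y),
      |f (Quotient.mk (rowSetoid f) x).out q.out| ≤ max M ((max K₁ K₂ : ℕ) : ℝ) := by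
    intro q
    by_cases hq : ((max K₁ K₂ : ℕ) : ℝ) < |f (Quotient.mk (rowSetoid f) x).out q.out|
    · exact (hM ⟨q, hq, rfl⟩).trans (le_max_left _ _)
    · exact (not_lt.1 hq).trans (le_max_right _ _)
  have hb : BddAbove (range fun y => |f x y|) := by
    refine ⟨max M₂ (max M ((max K₁ K₂ : ℕ) : ℝ) + K₀ + L₀), ?_⟩
    rintro _ ⟨y', rfl⟩
    by_cases hy' : y' ∈ C₀
    · exact (hM₂ y' hy' x hx₂).trans (le_max_left _ _)
    · refine le_trans ?_ (le_max_right _ _)
      have h1 := hL₀ y' hy' x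
      have h2 := hK₀ x hx₀ (Quotient.mk (rowSetoid fun y x => f x y) y').out
      have h3 := hbar (Quotient.mk (rowSetoid fun y x => f x y) y')
      have h4 := abs_sub_abs_le_abs_sub (f x y')
        (f x (Quotient.mk (rowSetoid fun y x => f x y) y').out)
      have h5 := abs_sub_abs_le_abs_sub (f x (Quotient.mk (rowSetoid fun y x => f x y) y').out)
        (f (Quotient.mk (rowSetoid f) x).out (Quotient.mk (rowSetoid fun y x => f x y) y').out)
      show |f x y'| ≤ _
      linarith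
  exact ((le_ciSup hb y).trans (le_abs_self _)).trans (hM₃ x hx₃)

end Pool.Agent.MP_da2089_gt

end MrgPart1

-- marker of a merged file
example : 731051 + 152702 = 731051 + 152702 := rfl
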